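import Mathlib

/-!
# The ribbon genus and the slice genus of `m T(2,a) # -n T(2,b)`

Let `K` be the connected sum of `m` copies of the torus knot `T(2,a)` and `n` copies of the mirror
image of `T(2,b)`, `a`, `b` odd. We may assume `n b ≤ m a`. Put
`c = max (n k - m ⌊a k / b⌋)` over `0 ≤ k < b` and `2 g = m (a - 1) - n (b - 1) + 2 c`. The theorem
contains the two facts which give `g_r(K) = g_4(K) = g`.

* There is a cobordism from the sum `A` of the `m` copies of `T(2,a)` to the sum `B` of the `n` copies
  of `T(2,b)` which consists of at most `2 g` saddles. Here the list `[n₁, …, n_r]` of positive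
  integers is the link `T(2,n₁) # ⋯ # T(2,n_r)`, the boundary of the surface which consists of a
  bottom disc and of `r` top discs in a row, the `i`-th of which is joined to the bottom disc by `n_i`
  parallel half-twisted bands. Cutting a top disc between two bands, or joining two neighbouring top
  discs, is a saddle move; an entry `1` can be dropped. So `K = A # -B` bounds a ribbon surface of
  genus at most `g`: at most `2 g` saddles lead to `B # -B`, which bounds a ribbon disc.
* The Tristram-Levine signature function of `K` is equal to `± 2 g` on an open interval, so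
  `g ≤ g_4(K)`.

Proof: if the `m` copies of `T(2,a)` are divided into `p` groups of `l₁, …, l_p` copies with
`∑ ⌊a l_i / b⌋ ≥ n`, then there is a cobordism with `m a - n b + m + n - 2 p` saddles. The largest `p`
is `m - c`: by the Euclidean algorithm there is a basis `(l, g)`, `(l', g')` of the lattice of the
points on or under the line of slope `a / b` with `(m, n)` in its cone and `(l' - l, g' - g)` above
the line, and one takes groups of `l` and of `l'` copies.
-/

set_option autoImplicit false

namespace Pool.Agent.Results.MP_177a0e_gt.TwoStrandTorusSums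

open Finset

/-- `Moves c s t`: the list `t` is obtained from the list `s` by a sequence of the following moves,
exactly `c` of which are of the first two types: replace an entry `p + q` by the two entries `p`, `q`
(`p, q > 0`); replace two neighbouring entries `p`, `q` by `p + q` (`p, q > 0`); drop an entry `1`. -/
inductive Moves : ℕ → List ℕ → List ℕ → Prop
  | refl (s : List ℕ) : Moves 0 s s
  | split {c : ℕ} {s u v : List ℕ} {p q : ℕ} (hp : 0 < p) (hq : 0 < q) :
      Moves c s (u ++ (p + q) :: v) → Moves (c + 1) s (u ++ p :: q :: v)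
  | merge {c : ℕ} {s u v : List ℕ} {p q : ℕ} (hp : 0 < p) (hq : 0 < q) :
      Moves c s (u ++ p :: q :: v) → Moves (c + 1) s (u ++ (p + q) :: v)
  | drop {c : ℕ} {s u v : List ℕ} : Moves c s (u ++ 1 :: v) → Moves c s (u ++ v)

/-- The signature of the torus knot `T(2,n)` at `exp (2 π i x)`, `0 < x < 1` (formula of Brieskorn and
Litherland): the sum over `0 < j < n` of `-1` if `x < 1/2 + j/n < x + 1` and of `1` otherwise. -/
noncomputable def sig (n : ℕ) (x : ℝ) : ℤ :=
  ∑ j ∈ Ioo 0 n, if x < 1 / 2 + (j : ℝ) / n ∧ 1 / 2 + (j : ℝ) / n < x + 1 then -1 else 1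

/-! ### Paths -/

theorem Moves.trans {c d : ℕ} {s t r : List ℕ} (h : Moves c s t) (h' : Moves d t r) :
    Moves (c + d) s r := by
  induction h' with
  | refl => simpa using h
  | split hp hq _ ih => exact Moves.split hp hq (ih h)
  | merge hp hq _ ih => exact Moves.merge hp hq (ih h)
  | drop _ ih => exact Moves.drop (ih h)

theorem Moves.ctx {c : ℕ} {s t : List ℕ} (w z : List ℕ) (h : Moves c s t) :
    Moves c (w ++ (s ++ z)) (w ++ (t ++ z)) := by
  induction h with
  | refl => exact Moves.refl _
  | @split c s u v p q hp hq _ ih =>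
    have e1 : w ++ (u ++ (p + q) :: v ++ z) = (w ++ u) ++ (p + q) :: (v ++ z) := by simp
    have e2 : w ++ (u ++ p :: q :: v ++ z) = (w ++ u) ++ p :: q :: (v ++ z) := by simp
    rw [e2]; rw [e1] at ih
    exact Moves.split hp hq ih
  | @merge c s u v p q hp hq _ ih =>
    have e1 : w ++ (u ++ (p + q) :: v ++ z) = (w ++ u) ++ (p + q) :: (v ++ z) := by simp
    have e2 : w ++ (u ++ p :: q :: v ++ z) = (w ++ u) ++ p :: q :: (v ++ z) := by simp
    rw [e1]; rw [e2] at ih
    exact Moves.merge hp hq ih
  | @drop c s u v _ ih =>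
    have e1 : w ++ (u ++ 1 :: v ++ z) = (w ++ u) ++ 1 :: (v ++ z) := by simp
    have e2 : w ++ (u ++ v ++ z) = (w ++ u) ++ (v ++ z) := by simp
    rw [e2]; rw [e1] at ih
    exact Moves.drop ih

theorem Moves.cons {c : ℕ} {s t : List ℕ} (x : ℕ) (h : Moves c s t) :
    Moves c (x :: s) (x :: t) := by
  simpa using h.ctx [x] []

theorem Moves.append {c d : ℕ} {s t s' t' : List ℕ} (h : Moves c s t) (h' : Moves d s' t') :
    Moves (c + d) (s ++ s') (t ++ t') := by
  have h1 := h.ctx [] s'
  have h2 := h'.ctx t []
  simp only [List.nil_append, List.append_nil] at h1 h2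
  exact h1.trans h2

theorem merge_all {a : ℕ} (ha : 0 < a) : ∀ l : ℕ,
    Moves l (List.replicate (l + 1) a) [a * (l + 1)]
  | 0 => by simpa using Moves.refl [a]
  | l + 1 => by
    have h := (merge_all ha l).cons a
    rw [List.replicate_succ]
    have h2 : Moves (l + 1) (a :: List.replicate (l + 1) a) [a + a * (l + 1)] :=
      Moves.merge (u := []) (v := []) ha (by positivity) h
    have e : a * (l + 1 + 1) = a + a * (l + 1) := by ring
    rw [e]; exact h2

theorem split_all {b : ℕ} (hb : 0 < b) : ∀ q : ℕ,
    Moves q [b * (q + 1)] (List.replicate (q + 1) b)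
  | 0 => by simpa using Moves.refl [b]
  | q + 1 => by
    have h := (split_all hb q).cons b
    rw [List.replicate_succ]
    have h1 : Moves 1 [b + b * (q + 1)] (b :: [b * (q + 1)]) :=
      Moves.split (u := []) (v := []) hb (by positivity) (Moves.refl _)
    have e : b * (q + 1 + 1) = b + b * (q + 1) := by ring
    rw [e]
    have h2 := h1.trans h
    rw [Nat.add_comm 1 q] at h2
    exact h2

theorem reduce {c : ℕ} (hc : 0 < c) : ∀ k : ℕ, Moves k [c + k] [c]
  | 0 => Moves.refl _
  | k + 1 => by
    have h1 : Moves 1 [(c + k) + 1] ([] ++ (c + k) :: 1 :: []) :=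
      Moves.split (u := []) (v := []) (by omega) one_pos (Moves.refl _)
    have h2 : Moves 1 [(c + k) + 1] ([c + k] ++ []) := Moves.drop (u := [c + k]) (v := []) h1
    have h3 := Moves.trans h2 (by simpa using reduce hc k)
    rw [Nat.add_comm k 1]
    have e : c + (1 + k) = c + k + 1 := by ring
    rw [e]; exact h3

theorem kill {a : ℕ} (ha : 0 < a) : Moves (a - 1) [a] [] := by
  have h := reduce one_pos (a - 1)
  have e : 1 + (a - 1) = a := by omega
  rw [e] at h
  exact Moves.drop (u := []) (v := []) h

theorem kill_all {a : ℕ} (ha : 0 < a) : ∀ l : ℕ, Moves (l * (a - 1)) (List.replicate l a) []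
  | 0 => by simpa using Moves.refl []
  | l + 1 => by
    have h := (kill ha).append (kill_all ha l)
    have e : (l + 1) * (a - 1) = (a - 1) + l * (a - 1) := by ring
    rw [e, List.replicate_succ]
    simpa using h

theorem segment {a b : ℕ} (ha : 0 < a) (hb : 0 < b) {l q : ℕ} (hl : 1 ≤ l)
    (h : b * q ≤ a * l) :
    ∃ c, c + b * q + 2 ≤ a * l + l + q ∧
      Moves c (List.replicate l a) (List.replicate q b) := by
  obtain ⟨l, rfl⟩ : ∃ l', l = l' + 1 := ⟨l - 1, by omega⟩
  rcases Nat.eq_zero_or_pos q with rfl | hq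
  · refine ⟨(l + 1) * (a - 1), ?_, by simpa using kill_all ha (l + 1)⟩
    obtain ⟨a, rfl⟩ : ∃ a', a = a' + 1 := ⟨a - 1, by omega⟩
    simp only [Nat.add_sub_cancel]
    nlinarith
  · obtain ⟨q, rfl⟩ : ∃ q', q = q' + 1 := ⟨q - 1, by omega⟩
    obtain ⟨k, hk⟩ := Nat.exists_eq_add_of_le h
    refine ⟨l + k + q, by rw [hk]; omega, ?_⟩
    have h1 := merge_all ha l
    rw [hk] at h1
    exact (h1.trans (reduce (by positivity) k)).trans (split_all hb q)

theorem path {a b : ℕ} (ha : 0 < a) (hb : 0 < b) : ∀ (P : List ℕ) (n : ℕ), (∀ l ∈ P, 1 ≤ l) →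
    n ≤ (P.map fun l => a * l / b).sum →
    ∃ c, c + b * n + 2 * P.length ≤ a * P.sum + P.sum + n ∧
      Moves c (List.replicate P.sum a) (List.replicate n b)
  | [], n, _, h => by
    have hn : n = 0 := by simpa using h
    subst hn
    exact ⟨0, by simp, by simpa using Moves.refl []⟩
  | l :: P, n, hP, h => by
    have hl : 1 ≤ l := hP l (by simp)
    set q := min n (a * l / b) with hq
    have h1 : q ≤ n := min_le_left _ _
    have h2 : q ≤ a * l / b := min_le_right _ _
    have h3 : b * q ≤ a * l := by
      rw [Nat.le_div_iff_mul_le hb] at h2; linarith [Nat.mul_comm b q]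
    have h4 : n - q ≤ (P.map fun l => a * l / b).sum := by
      simp only [List.map_cons, List.sum_cons] at h
      rcases le_total n (a * l / b) with h5 | h5
      · rw [min_eq_left h5] at hq; omega
      · rw [min_eq_right h5] at hq; omega
    obtain ⟨c1, hc1, m1⟩ := segment ha hb hl h3
    obtain ⟨c2, hc2, m2⟩ := path ha hb P (n - q) (fun x hx => hP x (by simp [hx])) h4
    refine ⟨c1 + c2, ?_, ?_⟩
    · simp only [List.length_cons, List.sum_cons]
      have e : b * n = b * q + b * (n - q) := by rw [← Nat.mul_add]; congr 1; omega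
      rw [e, Nat.mul_add a l]
      omega
    · have := m1.append m2
      rw [← List.replicate_add, ← List.replicate_add, Nat.add_sub_cancel' h1] at this
      simpa using this

/-! ### The best partition -/

/-- The Euclidean algorithm: `(l, g)` is on or under the line of slope `a / b`, `(k, h)` is above it,
and `(m, n) = x (l, g) + y (k, h)`. -/
theorem core (a b : ℕ) (hb : 0 < b) : ∀ (s x y l g k h : ℕ), x + y ≤ s → 1 ≤ l →
    b * g ≤ a * l → a * k < b * h → l * h = g * k + 1 →
    b * (x * g + y * h) ≤ a * (x * l + y * k) →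
    ∃ (K : ℕ) (P : List ℕ), (∀ l ∈ P, 1 ≤ l) ∧ P.sum = x * l + y * k ∧
      x * g + y * h ≤ (P.map fun l => a * l / b).sum ∧
      P.length + (x * g + y * h) * K = (x * l + y * k) * (a * K / b + 1) := by
  intro s
  induction s with
  | zero =>
    intro x y l g k h hs _ _ _ _ _
    have hx : x = 0 := by omega
    have hy : y = 0 := by omega
    subst hx; subst hy
    exact ⟨0, [], by simp, by simp, by simp, by simp⟩
  | succ s ih =>
    intro x y l g k h hs hl hV hW hdet hle
    have hk : a * k / b + 1 = h := by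
      have h1 : 1 ≤ h := by
        rcases Nat.eq_zero_or_pos h with rfl | h1
        · simp at hW
        · exact h1
      obtain ⟨h, rfl⟩ : ∃ h', h = h' + 1 := ⟨h - 1, by omega⟩
      have h2 : l * (b * h) ≤ l * (a * k) := by
        have h3 : b * g * k ≤ a * l * k := Nat.mul_le_mul_right k hV
        have h4 : b * (l * (h + 1)) = b * (g * k + 1) := by rw [hdet]
        nlinarith
      have h3 : b * h ≤ a * k := Nat.le_of_mul_le_mul_left h2 hl
      have h4 : a * k / b = h := by
        apply Nat.div_eq_of_lt_le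
        · rw [Nat.mul_comm h b]; exact h3
        · rw [Nat.mul_comm (h + 1) b]; exact hW
      rw [h4]
    by_cases hy : y = 0
    · subst hy
      refine ⟨k, List.replicate x l, ?_, by simp, ?_, ?_⟩
      · intro z hz; rw [List.eq_of_mem_replicate hz]; exact hl
      · simp only [List.map_replicate, List.sum_replicate, smul_eq_mul, Nat.zero_mul,
          Nat.add_zero]
        refine Nat.mul_le_mul_left x ?_
        rw [Nat.le_div_iff_mul_le hb, Nat.mul_comm]; exact hV
      · rw [hk, List.length_replicate]
        have : x * l * h = x * (g * k + 1) := by rw [← hdet]; ring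
        simp only [Nat.zero_mul, Nat.add_zero]
        rw [this]; ring
    by_cases hc : a * (l + k) < b * (g + h)
    · -- the new upper vector
      have hyx : y ≤ x := by
        by_contra hlt
        push Not at hlt
        obtain ⟨d, rfl⟩ : ∃ d, y = x + d := ⟨y - x, by omega⟩
        have hd : 1 ≤ d := by omega
        have h1 : x * (a * (l + k)) ≤ x * (b * (g + h)) := Nat.mul_le_mul_left x hc.le
        have h2 : d * (a * k) + 1 ≤ d * (b * h) := by
          have : d * (a * k) < d * (b * h) := Nat.mul_lt_mul_of_pos_left hW hd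
          omega
        nlinarith
      obtain ⟨x, rfl⟩ : ∃ x', x = x' + y := ⟨x - y, by omega⟩
      have e1 : x * g + y * (g + h) = (x + y) * g + y * h := by ring
      have e2 : x * l + y * (l + k) = (x + y) * l + y * k := by ring
      have := ih x y l g (l + k) (g + h) (by omega) hl hV hc (by nlinarith)
        (by rw [e1, e2]; exact hle)
      rw [e1, e2] at this
      exact this
    · push Not at hc
      by_cases hyx : y ≤ x
      · obtain ⟨x, rfl⟩ : ∃ x', x = x' + y := ⟨x - y, by omega⟩
        refine ⟨k, List.replicate x l ++ List.replicate y (l + k), ?_, ?_, ?_, ?_⟩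
        · intro z hz
          rcases List.mem_append.1 hz with hz | hz
          · rw [List.eq_of_mem_replicate hz]; exact hl
          · rw [List.eq_of_mem_replicate hz]; omega
        · simp only [List.sum_append, List.sum_replicate, smul_eq_mul]; ring
        · simp only [List.map_append, List.map_replicate, List.sum_append, List.sum_replicate,
            smul_eq_mul]
          have h1 : g ≤ a * l / b := by rw [Nat.le_div_iff_mul_le hb, Nat.mul_comm]; exact hV
          have h2 : g + h ≤ a * (l + k) / b := by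
            rw [Nat.le_div_iff_mul_le hb, Nat.mul_comm]; exact hc
          have h3 := Nat.mul_le_mul_left x h1
          have h4 := Nat.mul_le_mul_left y h2
          nlinarith
        · rw [hk, List.length_append, List.length_replicate, List.length_replicate]
          have : (x + y) * l * h = (x + y) * (g * k + 1) := by rw [← hdet]; ring
          have e : ((x + y) * l + y * k) * h = (x + y) * l * h + y * k * h := by ring
          rw [e, this]; ring
      · push Not at hyx
        obtain ⟨y, rfl⟩ : ∃ y', y = y' + x := ⟨y - x, by omega⟩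
        by_cases hx : x = 0
        · exfalso
          subst hx
          have h2 : y * (a * k) < y * (b * h) := Nat.mul_lt_mul_of_pos_left hW (by omega)
          nlinarith
        have e1 : x * (g + h) + y * h = x * g + (y + x) * h := by ring
        have e2 : x * (l + k) + y * k = x * l + (y + x) * k := by ring
        have := ih x y (l + k) (g + h) k h (by omega) (by omega) hc hW (by nlinarith)
          (by rw [e1, e2]; exact hle)
        rw [e1, e2] at this
        exact this

/-- Every admissible partition has at most `m (⌊a K / b⌋ + 1) - n K` parts. -/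
theorem weak {a b : ℕ} (hb : 0 < b) (K : ℕ) : ∀ P : List ℕ, (∀ l ∈ P, 1 ≤ l) →
    P.length + (P.map fun l => a * l / b).sum * K ≤ P.sum * (a * K / b + 1)
  | [], _ => by simp
  | l :: P, hP => by
    have ih := weak (a := a) hb K P (fun x hx => hP x (by simp [hx]))
    have hl : 1 ≤ l := hP l (by simp)
    have h1 : a * K < b * (a * K / b + 1) := by
      have := Nat.lt_mul_div_succ (a * K) hb
      simpa using this
    have h2 : b * (a * l / b) ≤ a * l := Nat.mul_div_le _ _
    have h3 : (a * l / b) * K < l * (a * K / b + 1) := by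
      refine Nat.lt_of_mul_lt_mul_left (a := b) ?_
      have h4 : b * (a * l / b) * K ≤ a * l * K := Nat.mul_le_mul_right K h2
      have h5 : l * (a * K) < l * (b * (a * K / b + 1)) := Nat.mul_lt_mul_of_pos_left h1 hl
      nlinarith
    simp only [List.length_cons, List.map_cons, List.sum_cons, Nat.add_mul]
    omega

/-- The optimal partition and the maximum. -/
theorem opt (a b m n : ℕ) (hb : 0 < b) (h : n * b ≤ m * a) :
    ∃ (K : ℕ) (P : List ℕ), K < b ∧ (∀ l ∈ P, 1 ≤ l) ∧ P.sum = m ∧
      n ≤ (P.map fun l => a * l / b).sum ∧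
      P.length + n * K = m * (a * K / b + 1) ∧
      ∀ k, P.length + n * k ≤ m * (a * k / b + 1) := by
  have key : ∃ (K : ℕ) (P : List ℕ), (∀ l ∈ P, 1 ≤ l) ∧ P.sum = m ∧
      n ≤ (P.map fun l => a * l / b).sum ∧ P.length + n * K = m * (a * K / b + 1) := by
    by_cases hq : m * (a / b) ≤ n
    · obtain ⟨y, rfl⟩ := Nat.exists_eq_add_of_le hq
      have h1 : b * (a / b) ≤ a * 1 := by rw [Nat.mul_one]; exact Nat.mul_div_le _ _
      have := core a b hb (m + y) m y 1 (a / b) 0 1 le_rfl le_rfl h1 (by simpa using hb)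
        (by simp) (by
          have e : m * 1 + y * 0 = m := by ring
          have e' : m * (a / b) + y * 1 = m * (a / b) + y := by ring
          rw [e, e', Nat.mul_comm b, Nat.mul_comm a]; exact h)
      simpa using this
    · push Not at hq
      refine ⟨0, List.replicate m 1, ?_, by simp, ?_, by simp⟩
      · intro z hz; rw [List.eq_of_mem_replicate hz]
      · simp only [List.map_replicate, List.sum_replicate, smul_eq_mul, Nat.mul_one]
        exact hq.le
  obtain ⟨K, P, hP, hs, hn, he⟩ := key
  have hw : ∀ k, P.length + n * k ≤ m * (a * k / b + 1) := by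
    intro k
    have h1 := weak (a := a) hb k P hP
    rw [hs] at h1
    have h2 := Nat.mul_le_mul_right k hn
    omega
  refine ⟨K % b, P, Nat.mod_lt _ hb, hP, hs, hn, ?_, hw⟩
  refine le_antisymm (hw _) ?_
  have h1 : K = K % b + b * (K / b) := (Nat.mod_add_div K b).symm
  set r := K % b with hr
  set t := K / b with ht
  have h2 : a * K / b = a * r / b + a * t := by
    rw [h1, Nat.mul_add, ← Nat.mul_assoc a b t, Nat.mul_comm a b, Nat.mul_assoc b a t,
      Nat.add_mul_div_left _ _ hb]
  rw [h2] at he
  have h3 : n * K = n * r + n * b * t := by rw [h1]; ring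
  have h4 : n * b * t ≤ m * a * t := Nat.mul_le_mul_right t h
  have h5 : m * (a * r / b + a * t + 1) = m * (a * r / b + 1) + m * a * t := by ring
  rw [h3, h5] at he
  omega

/-! ### Signatures -/

/-- The value of the signature at `x < 1 / 2`. -/
theorem sig_eq {n F : ℕ} {x : ℝ} (hF : F < n) (hx : x < 1 / 2)
    (h1 : (F : ℝ) < n * (1 / 2 - x)) (h2 : n * (1 / 2 - x) < F + 1) :
    sig n x = 2 * F - (n - 1) := by
  have hn : (0 : ℝ) < n := by exact_mod_cast (by omega : 0 < n)
  have hiff : ∀ j ∈ Ioo 0 n,
      ((x < 1 / 2 + (j : ℝ) / n ∧ 1 / 2 + (j : ℝ) / n < x + 1) ↔ j ≤ n - 1 - F) := by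
    intro j hj
    have hj0 : (0 : ℝ) ≤ (j : ℝ) / n := by positivity
    constructor
    · rintro ⟨-, h3⟩
      have h4 : (j : ℝ) / n < x + 1 / 2 := by linarith
      rw [div_lt_iff₀ hn] at h4
      have h5 : (j : ℝ) + F < n := by nlinarith
      have h6 : j + F < n := by exact_mod_cast h5
      omega
    · intro h3
      refine ⟨by linarith, ?_⟩
      have h4 : (j : ℝ) + F + 1 ≤ n := by exact_mod_cast (by omega : j + F + 1 ≤ n)
      have h5 : (j : ℝ) / n < x + 1 / 2 := by
        rw [div_lt_iff₀ hn]; nlinarith
      linarith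
  unfold sig
  rw [Finset.sum_congr rfl fun j hj => by
    rw [show (if x < 1 / 2 + (j : ℝ) / n ∧ 1 / 2 + (j : ℝ) / n < x + 1 then (-1 : ℤ) else 1)
      = if j ≤ n - 1 - F then -1 else 1 from by simp only [hiff j hj]]]
  rw [Finset.sum_ite, Finset.sum_const, Finset.sum_const]
  have e1 : (Ioo 0 n).filter (fun j => j ≤ n - 1 - F) = Ioc 0 (n - 1 - F) := by
    ext j; simp only [mem_filter, mem_Ioo, mem_Ioc]; omega
  have e2 : (Ioo 0 n).filter (fun j => ¬ j ≤ n - 1 - F) = Ioo (n - 1 - F) n := by
    ext j; simp only [mem_filter, mem_Ioo]; omega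
  rw [e1, e2, Nat.card_Ioc, Nat.card_Ioo]
  simp only [nsmul_eq_mul]
  have e3 : ((n - 1 - F - 0 : ℕ) : ℤ) = n - 1 - F := by omega
  have e4 : ((n - (n - 1 - F) - 1 : ℕ) : ℤ) = F := by omega
  rw [e3, e4]; ring

/-- **Theorem.** Let `a`, `b` be odd, `n b ≤ m a`, let `c` be the maximum of `n k - m ⌊a k / b⌋` over
`0 ≤ k < b`, and `2 g = m (a - 1) - n (b - 1) + 2 c`. Then `[a, …, a]` (`m` entries) can be changed
into `[b, …, b]` (`n` entries) with at most `2 g` splittings and mergings, and the absolute value of
`m sig a x - n sig b x` is `2 g` for all `x` in a nonempty open interval in `(0, 1/2)`. Hence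
`g_r(K) = g_4(K) = g` for `K = m T(2,a) # -n T(2,b)`. -/
theorem result (a b m n : ℕ) (ha : Odd a) (hb : Odd b) (h : n * b ≤ m * a) :
    ∃ (g : ℕ) (c : ℤ),
      IsGreatest {z : ℤ | ∃ k : ℕ, k < b ∧ z = (n : ℤ) * k - (m : ℤ) * ((a * k / b : ℕ) : ℤ)} c ∧
      2 * (g : ℤ) = (m : ℤ) * ((a : ℤ) - 1) - (n : ℤ) * ((b : ℤ) - 1) + 2 * c ∧
      (∃ s : ℕ, s ≤ 2 * g ∧ Moves s (List.replicate m a) (List.replicate n b)) ∧
      (∃ u v : ℝ, 0 ≤ u ∧ u < v ∧ v ≤ 1 / 2 ∧
        ∀ x : ℝ, u < x → x < v → |(m : ℤ) * sig a x - (n : ℤ) * sig b x| = 2 * g) := by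
  have ha0 : 0 < a := ha.pos
  have hb0 : 0 < b := hb.pos
  obtain ⟨K, P, hK, hP, hs, hn, he, hw⟩ := opt a b m n hb0 h
  set A := a * K / b with hA
  obtain ⟨s, hs1, hs2⟩ := path ha0 hb0 P n hP hn
  rw [hs] at hs1 hs2
  obtain ⟨a', ha'⟩ := ha
  obtain ⟨b', hb'⟩ := hb
  -- the genus
  have hg : ∃ g : ℕ, 2 * (g : ℤ) = (m : ℤ) * ((a : ℤ) - 1) - (n : ℤ) * ((b : ℤ) - 1) +
      2 * ((n : ℤ) * K - (m : ℤ) * A) := by
    have h0 : (0 : ℤ) ≤ (m : ℤ) * a' - (n : ℤ) * b' + ((n : ℤ) * K - (m : ℤ) * A) := by
      have h1 : (s : ℤ) + b * n + 2 * P.length ≤ a * m + m + n := by exact_mod_cast hs1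
      have h2 : (P.length : ℤ) + n * K = m * (A + 1) := by exact_mod_cast he
      have h3 : (a : ℤ) = 2 * a' + 1 := by exact_mod_cast ha'
      have h4 : (b : ℤ) = 2 * b' + 1 := by exact_mod_cast hb'
      rw [h3, h4] at h1
      have h5 : (0 : ℤ) ≤ s := by positivity
      nlinarith
    obtain ⟨g, hg⟩ := Int.eq_ofNat_of_zero_le h0
    refine ⟨g, ?_⟩
    rw [← hg, ha', hb']; push_cast; ring
  obtain ⟨g, hg⟩ := hg
  refine ⟨g, (n : ℤ) * K - (m : ℤ) * A, ⟨⟨K, hK, rfl⟩, ?_⟩, hg, ⟨s, ?_, hs2⟩, ?_⟩
  · rintro z ⟨k, -, rfl⟩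
    have h1 : (P.length : ℤ) + n * k ≤ m * ((a * k / b : ℕ) + 1) := by exact_mod_cast hw k
    have h2 : (P.length : ℤ) + n * K = m * (A + 1) := by exact_mod_cast he
    nlinarith
  · have h1 : (s : ℤ) + b * n + 2 * P.length ≤ a * m + m + n := by exact_mod_cast hs1
    have h2 : (P.length : ℤ) + n * K = m * (A + 1) := by exact_mod_cast he
    have h3 : (s : ℤ) ≤ 2 * g := by rw [hg]; nlinarith
    exact_mod_cast h3
  · have hbr : (0 : ℝ) < b := by exact_mod_cast hb0
    have har : (0 : ℝ) < a := by exact_mod_cast ha0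
    have hAK : (A : ℝ) * b ≤ a * K := by
      have : A * b ≤ a * K := Nat.div_mul_le_self _ _
      exact_mod_cast this
    have hAK' : (a : ℝ) * K < (A + 1) * b := by
      have : a * K < (A + 1) * b := by
        have := Nat.lt_mul_div_succ (a * K) hb0
        rw [Nat.mul_comm (A + 1) b]
        exact this
      exact_mod_cast this
    have hAa : A < a := by
      have h1 : a * K < a * b := Nat.mul_lt_mul_of_pos_left hK ha0
      exact Nat.div_lt_of_lt_mul (by rw [Nat.mul_comm b a]; exact h1)
    clear_value A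
    rcases Nat.lt_or_ge (2 * K) b with h2K | h2K
    · -- `1/2 - x` slightly larger than `K / b`
      have hKb : (K : ℝ) / b < 1 / 2 := by
        rw [div_lt_iff₀ hbr]
        have : (2 * K : ℝ) < b := by exact_mod_cast h2K
        linarith
      have k1 : (K : ℝ) / b < (A + 1) / a := by
        rw [div_lt_div_iff₀ hbr har]; nlinarith
      have k2 : (K : ℝ) / b < (K + 1) / b := by
        rw [div_lt_div_iff_of_pos_right hbr]; linarith
      set w := min (1 / 2) (min (((A : ℝ) + 1) / a) ((K + 1) / b)) with hw'
      have hw1 : (K : ℝ) / b < w := lt_min hKb (lt_min k1 k2)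
      have hw2 : w ≤ 1 / 2 := min_le_left _ _
      have hw3 : w ≤ ((A : ℝ) + 1) / a := (min_le_right _ _).trans (min_le_left _ _)
      have hw4 : w ≤ ((K : ℝ) + 1) / b := (min_le_right _ _).trans (min_le_right _ _)
      refine ⟨1 / 2 - w, 1 / 2 - K / b, by linarith, by linarith, ?_, ?_⟩
      · have : (0 : ℝ) ≤ K / b := by positivity
        linarith
      intro x hx1 hx2
      have y1 : (K : ℝ) / b < 1 / 2 - x := by linarith
      have y2 : 1 / 2 - x < w := by linarith
      have y0 : (0 : ℝ) ≤ K / b := by positivity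
      have s1 : sig a x = 2 * A - (a - 1) := by
        refine sig_eq hAa (by linarith) ?_ ?_
        · have h1 : (A : ℝ) / a ≤ K / b := by
            rw [div_le_div_iff₀ har hbr]; linarith
          have h2 : (A : ℝ) / a < 1 / 2 - x := lt_of_le_of_lt h1 y1
          rw [div_lt_iff₀ har] at h2; linarith
        · have h2 : 1 / 2 - x < ((A : ℝ) + 1) / a := lt_of_lt_of_le y2 hw3
          rw [lt_div_iff₀ har] at h2; linarith
      have s2 : sig b x = 2 * K - (b - 1) := by
        refine sig_eq hK (by linarith) ?_ ?_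
        · have h2 := y1
          rw [div_lt_iff₀ hbr] at h2; linarith
        · have h2 : 1 / 2 - x < ((K : ℝ) + 1) / b := lt_of_lt_of_le y2 hw4
          rw [lt_div_iff₀ hbr] at h2; linarith
      rw [s1, s2]
      have e : (m : ℤ) * (2 * A - (a - 1)) - (n : ℤ) * (2 * K - (b - 1)) = -(2 * g) := by
        rw [hg]; ring
      rw [e, abs_neg, abs_of_nonneg (by positivity)]
    · -- `1/2 - x` slightly smaller than `1 - K / b`
      have hKb : (1 : ℝ) - K / b < 1 / 2 := by
        have h1 : (b : ℝ) < 2 * K := by
          have : b < 2 * K := by omega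
          exact_mod_cast this
        have h2 : (1 : ℝ) / 2 < K / b := by rw [lt_div_iff₀ hbr]; linarith
        linarith
      have hKb0 : (0 : ℝ) < 1 - K / b := by
        have h1 : (K : ℝ) < b := by exact_mod_cast hK
        have h2 : (K : ℝ) / b < 1 := by rw [div_lt_one hbr]; exact h1
        linarith
      have k1 : ((a : ℝ) - A - 1) / a < 1 - K / b := by
        have e : (1 : ℝ) - K / b = (b - K) / b := by field_simp
        rw [e, div_lt_div_iff₀ har hbr]; nlinarith
      have k2 : ((b : ℝ) - K - 1) / b < 1 - K / b := by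
        have e : (1 : ℝ) - K / b = (b - K) / b := by field_simp
        rw [e, div_lt_div_iff_of_pos_right hbr]; linarith
      set w := max 0 (max (((a : ℝ) - A - 1) / a) (((b : ℝ) - K - 1) / b)) with hw'
      have hw1 : w < 1 - (K : ℝ) / b := max_lt hKb0 (max_lt k1 k2)
      have hw2 : 0 ≤ w := le_max_left _ _
      have hw3 : ((a : ℝ) - A - 1) / a ≤ w := (le_max_left _ _).trans (le_max_right _ _)
      have hw4 : ((b : ℝ) - K - 1) / b ≤ w := (le_max_right _ _).trans (le_max_right _ _)
      refine ⟨1 / 2 - (1 - K / b), 1 / 2 - w, by linarith, by linarith, by linarith, ?_⟩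
      intro x hx1 hx2
      have y1 : w < 1 / 2 - x := by linarith
      have y2 : 1 / 2 - x < 1 - (K : ℝ) / b := by linarith
      have s1 : sig a x = 2 * (a - A - 1) - (a - 1) := by
        have e : ((a - A - 1 : ℕ) : ℤ) = a - A - 1 := by omega
        have er : ((a - A - 1 : ℕ) : ℝ) = a - A - 1 := by
          have : ((a - A - 1 : ℕ) : ℝ) = (((a - A - 1 : ℕ) : ℤ) : ℝ) := by norm_cast
          rw [this, e]; push_cast; ring
        rw [← e]
        refine sig_eq (n := a) (F := a - A - 1) (by omega) (by linarith) ?_ ?_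
        · rw [er]
          have h2 : ((a : ℝ) - A - 1) / a < 1 / 2 - x := lt_of_le_of_lt hw3 y1
          rw [div_lt_iff₀ har] at h2; linarith
        · rw [er]
          have h1 : (1 : ℝ) - K / b ≤ (a - A) / a := by
            have e : (1 : ℝ) - K / b = (b - K) / b := by field_simp
            rw [e, div_le_div_iff₀ hbr har]; nlinarith
          have h2 : 1 / 2 - x < ((a : ℝ) - A) / a := lt_of_lt_of_le y2 h1
          rw [lt_div_iff₀ har] at h2; linarith
      have s2 : sig b x = 2 * (b - K - 1) - (b - 1) := by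
        have e : ((b - K - 1 : ℕ) : ℤ) = b - K - 1 := by omega
        have er : ((b - K - 1 : ℕ) : ℝ) = b - K - 1 := by
          have : ((b - K - 1 : ℕ) : ℝ) = (((b - K - 1 : ℕ) : ℤ) : ℝ) := by norm_cast
          rw [this, e]; push_cast; ring
        rw [← e]
        refine sig_eq (n := b) (F := b - K - 1) (by omega) (by linarith) ?_ ?_
        · rw [er]
          have h2 : ((b : ℝ) - K - 1) / b < 1 / 2 - x := lt_of_le_of_lt hw4 y1
          rw [div_lt_iff₀ hbr] at h2; linarith
        · rw [er]
          have e : (1 : ℝ) - K / b = (b - K) / b := by field_simp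
          have h2 : 1 / 2 - x < ((b : ℝ) - K) / b := by rw [← e]; exact y2
          rw [lt_div_iff₀ hbr] at h2; linarith
      rw [s1, s2]
      have e : (m : ℤ) * (2 * (a - A - 1) - (a - 1)) - (n : ℤ) * (2 * (b - K - 1) - (b - 1)) =
          2 * g := by
        rw [hg]; ring
      rw [e, abs_of_nonneg (by positivity)]

end Pool.Agent.Results.MP_177a0e_gt.TwoStrandTorusSums
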