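import Mathlib

/-!
# The ribbon genus and the slice genus of `T(2,b₁) # ⋯ # T(2,bₙ) # -m T(2,a)`

Let `a` and all `b` in `B` be odd, and let `K` be the connected sum of the torus knots `T(2,b)`,
`b` in `B`, and of the mirror images of `m` copies of `T(2,a)`. The theorem contains the two facts
which give `g_r(K) = g_4(K) = g` for an explicit `g`, when `B` has two members and `m` is arbitrary,
and also for every `B` and `m ≤ ∑ ⌊b / a⌋` or `m ≥ ∑ ⌈b / a⌉`.

* There is a cobordism of at most `2 g` saddles between the sum `A` of `m` copies of `T(2,a)` and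
  the sum of the `T(2,b)`. Here a multiset `{n₁, …, n_r}` of positive integers is the link
  `T(2,n₁) # ⋯ # T(2,n_r)`, the boundary of the surface which consists of a bottom disc and of `r`
  top discs, the `i`-th of which is joined to the bottom disc by `n_i` parallel half-twisted bands.
  The summands are joined along the component which contains the free part of the boundary of the
  bottom disc, so that their order does not matter. Cutting a top disc between two bands, or
  joining two neighbouring top discs, is a saddle move; entries `1` can be dropped and inserted.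
  So `K` bounds a ribbon surface of genus at most `g`.
* The Tristram-Levine signature function of `K` is equal to `± 2 g` on an open interval (which ends
  at `1 / 2`, or at the first jump `1 / 2 - 1 / a` of the signature function of `T(2,a)` below
  `1 / 2`), so `g ≤ g_4(K)`.
-/

set_option autoImplicit false

namespace Pool.Agent.Results.MP_177a0e_gt.UnequalTorusSums

open Multiset

/-- `Moves c s t`: the multiset `t` is obtained from `s` by a sequence of the following moves,
exactly `c` of which are of the first two types: replace an entry `p + q` by the two entries `p`,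
`q` (`p, q > 0`); replace two entries `p`, `q` by `p + q` (`p, q > 0`); drop an entry `1`; insert an
entry `1`. -/
inductive Moves : ℕ → Multiset ℕ → Multiset ℕ → Prop
  | refl (s : Multiset ℕ) : Moves 0 s s
  | split {c : ℕ} {s u : Multiset ℕ} {p q : ℕ} (hp : 0 < p) (hq : 0 < q) :
      Moves c s ((p + q) ::ₘ u) → Moves (c + 1) s (p ::ₘ q ::ₘ u)
  | merge {c : ℕ} {s u : Multiset ℕ} {p q : ℕ} (hp : 0 < p) (hq : 0 < q) :
      Moves c s (p ::ₘ q ::ₘ u) → Moves (c + 1) s ((p + q) ::ₘ u)
  | drop {c : ℕ} {s u : Multiset ℕ} : Moves c s (1 ::ₘ u) → Moves c s u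
  | ins {c : ℕ} {s u : Multiset ℕ} : Moves c s u → Moves c s (1 ::ₘ u)

/-- The signature of the torus knot `T(2,n)` at `exp (2 π i x)`, `0 < x < 1` (formula of Brieskorn and
Litherland): the sum over `0 < j < n` of `-1` if `x < 1/2 + j/n < x + 1` and of `1` otherwise. -/
noncomputable def sig (n : ℕ) (x : ℝ) : ℤ :=
  ∑ j ∈ Finset.Ioo 0 n, if x < 1 / 2 + (j : ℝ) / n ∧ 1 / 2 + (j : ℝ) / n < x + 1 then -1 else 1

/-- The two facts which show that the knot `K`, the sum of the `T(2,b)`, `b` in `B`, and of `m`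
copies of the mirror image of `T(2,a)`, has `g_r(K) = g_4(K) = L / 2`: `L` is even, at most `L`
splittings and mergings lead from `m` copies of `a` to `B`, and the signature function of `K` is
equal to `± L` on a nonempty open interval in `(0, 1/2)`. -/
def HasGenus (a m : ℕ) (B : Multiset ℕ) (L : ℤ) : Prop :=
  ∃ g : ℕ, L = 2 * g ∧ (∃ s : ℕ, s ≤ 2 * g ∧ Moves s (replicate m a) B) ∧
    ∃ u v : ℝ, 0 ≤ u ∧ u < v ∧ v ≤ 1 / 2 ∧
      ∀ x : ℝ, u < x → x < v → |(B.map fun b => sig b x).sum - (m : ℤ) * sig a x| = 2 * g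

/-- Twice the genus of `T(2,b) # T(2,c) # -m T(2,a)`. -/
def twiceGenus (a m b c : ℕ) : ℤ :=
  if m ≤ b / a + c / a then (b - 1) + (c - 1) - m * (a - 1)
  else if m = b / a + c / a + 1 ∧ a ≤ b % a + c % a then (b - 1) + (c - 1) - m * (a - 1) + 2
  else m * (a - 1) - (b - 1) - (c - 1) + 2 * (((b - 1) / a : ℕ) + ((c - 1) / a : ℕ))

/-! ### Paths -/

theorem Moves.trans {c d : ℕ} {s t r : Multiset ℕ} (h : Moves c s t) (h' : Moves d t r) :
    Moves (c + d) s r := by
  induction h' with
  | refl => simpa using h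
  | split hp hq _ ih => exact Moves.split hp hq (ih h)
  | merge hp hq _ ih => exact Moves.merge hp hq (ih h)
  | drop _ ih => exact Moves.drop (ih h)
  | ins _ ih => exact Moves.ins (ih h)

theorem Moves.addRight {c : ℕ} {s t : Multiset ℕ} (z : Multiset ℕ) (h : Moves c s t) :
    Moves c (s + z) (t + z) := by
  induction h with
  | refl => exact Moves.refl _
  | split hp hq _ ih =>
    rw [cons_add, cons_add]
    rw [cons_add] at ih
    exact Moves.split hp hq ih
  | merge hp hq _ ih =>
    rw [cons_add]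
    rw [cons_add, cons_add] at ih
    exact Moves.merge hp hq ih
  | drop _ ih =>
    rw [cons_add] at ih
    exact Moves.drop ih
  | ins _ ih =>
    rw [cons_add]
    exact Moves.ins ih

theorem Moves.append {c d : ℕ} {s t s' t' : Multiset ℕ} (h : Moves c s t) (h' : Moves d s' t') :
    Moves (c + d) (s + s') (t + t') := by
  have h1 := h.addRight s'
  have h2 := h'.addRight t
  rw [add_comm s' t, add_comm t' t] at h2
  exact h1.trans h2

theorem Moves.symm {c : ℕ} {s t : Multiset ℕ} (h : Moves c s t) : Moves c t s := by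
  induction h with
  | refl => exact Moves.refl _
  | @split c s u p q hp hq _ ih =>
    have h1 : Moves 1 (p ::ₘ q ::ₘ u) ((p + q) ::ₘ u) := Moves.merge hp hq (Moves.refl _)
    rw [add_comm]
    exact h1.trans ih
  | @merge c s u p q hp hq _ ih =>
    have h1 : Moves 1 ((p + q) ::ₘ u) (p ::ₘ q ::ₘ u) := Moves.split hp hq (Moves.refl _)
    rw [add_comm]
    exact h1.trans ih
  | @drop c s u _ ih =>
    have h1 : Moves 0 u (1 ::ₘ u) := Moves.ins (Moves.refl _)
    simpa using h1.trans ih
  | @ins c s u _ ih =>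
    have h1 : Moves 0 (1 ::ₘ u) u := Moves.drop (Moves.refl _)
    simpa using h1.trans ih

theorem reduce {c : ℕ} (hc : 0 < c) : ∀ k : ℕ, Moves k {c + k} {c}
  | 0 => Moves.refl _
  | k + 1 => by
    have h1 : Moves 1 {(1 + (c + k))} (1 ::ₘ (c + k) ::ₘ 0) :=
      Moves.split (u := 0) one_pos (by omega) (Moves.refl _)
    have h2 : Moves 1 {(1 + (c + k))} {c + k} := Moves.drop h1
    have h3 := Moves.trans h2 (reduce hc k)
    rw [add_comm 1 k, add_comm 1 (c + k)] at h3
    exact h3

theorem kill {a : ℕ} (ha : 0 < a) : Moves (a - 1) {a} 0 := by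
  have h := reduce one_pos (a - 1)
  have e : 1 + (a - 1) = a := by omega
  rw [e] at h
  exact Moves.drop (u := 0) h

theorem kill_all {a : ℕ} (ha : 0 < a) : ∀ l : ℕ, Moves (l * (a - 1)) (replicate l a) 0
  | 0 => by simpa using Moves.refl 0
  | l + 1 => by
    have h := (kill ha).append (kill_all ha l)
    have e : (l + 1) * (a - 1) = (a - 1) + l * (a - 1) := by ring
    rw [e, replicate_succ, ← singleton_add]
    simpa using h

/-- Merge `k` copies of `a` with an entry `r > 0`. -/
theorem merge_into {a r : ℕ} (ha : 0 < a) (hr : 0 < r) : ∀ k : ℕ,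
    Moves k (replicate k a + {r}) {a * k + r}
  | 0 => by simpa using Moves.refl {r}
  | k + 1 => by
    have h1 := (merge_into ha hr k).addRight {a}
    have h2 : Moves (k + 1) (replicate k a + {r} + {a}) {(a + (a * k + r))} := by
      apply Moves.merge (u := 0) ha (by omega)
      have e : (a ::ₘ (a * k + r) ::ₘ 0 : Multiset ℕ) = {a * k + r} + {a} :=
        add_comm ({a} : Multiset ℕ) {a * k + r}
      rw [e]
      exact h1
    have e1 : (replicate (k + 1) a + {r} : Multiset ℕ) = replicate k a + {r} + {a} := by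
      rw [replicate_succ, ← singleton_add]
      abel
    have e2 : a * (k + 1) + r = a + (a * k + r) := by ring
    rw [e1, e2]
    exact h2

/-- Take `k` copies of `a` out of the entry `b` and destroy the rest. -/
theorem split_out {a : ℕ} (ha : 0 < a) : ∀ (k b : ℕ), 0 < b → k * a ≤ b →
    ∃ c, c + k * (a - 1) + 1 = b ∧ Moves c {b} (replicate k a)
  | 0, b, hb, _ => ⟨b - 1, by omega, by simpa using kill hb⟩
  | k + 1, b, hb, h => by
    have e0 : (k + 1) * a = k * a + a := by ring
    have e1 : (k + 1) * (a - 1) = k * (a - 1) + (a - 1) := by ring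
    rcases Nat.lt_or_ge a b with hab | hab
    · obtain ⟨c, hc, hm⟩ := split_out ha k (b - a) (by omega) (by omega)
      refine ⟨c + 1, by omega, ?_⟩
      have h1 : Moves 1 {b} (a ::ₘ (b - a) ::ₘ 0) := by
        apply Moves.split (u := 0) ha (by omega)
        have e : a + (b - a) = b := by omega
        rw [e]
        exact Moves.refl _
      have h2 := hm.addRight {a}
      have e2 : (a ::ₘ (b - a) ::ₘ 0 : Multiset ℕ) = {b - a} + {a} :=
        add_comm ({a} : Multiset ℕ) {b - a}
      rw [e2] at h1
      have h3 := h1.trans h2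
      rw [add_comm 1 c] at h3
      rw [replicate_succ, ← singleton_add, add_comm ({a} : Multiset ℕ)]
      exact h3
    · have hk : k = 0 := by
        by_contra hk
        have : 1 * a ≤ k * a := Nat.mul_le_mul_right a (by omega)
        omega
      subst hk
      have : a = b := by omega
      subst this
      exact ⟨0, by omega, by simpa using Moves.refl {a}⟩

/-- Few copies of `a`: only splittings. -/
theorem path_few {a : ℕ} (ha : 0 < a) (B : Multiset ℕ) : (∀ b ∈ B, 0 < b) → ∀ m : ℕ,
    m ≤ (B.map fun b => b / a).sum →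
    ∃ c, c + m * (a - 1) + card B = B.sum ∧ Moves c B (replicate m a) := by
  induction B using Multiset.induction_on with
  | empty =>
    intro _ m hm
    have : m = 0 := by simpa using hm
    subst this
    exact ⟨0, by simp, by simpa using Moves.refl 0⟩
  | cons b B ih =>
    intro hB m hm
    rw [map_cons, sum_cons] at hm
    set k := min m (b / a) with hk
    have hk1 : k ≤ b / a := min_le_right _ _
    have hk2 : k ≤ m := min_le_left _ _
    have hk3 : m - k ≤ (B.map fun b => b / a).sum := by
      rcases le_total m (b / a) with h | h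
      · rw [min_eq_left h] at hk
        omega
      · rw [min_eq_right h] at hk
        omega
    obtain ⟨c, hc, hm1⟩ := ih (fun b' hb' => hB b' (mem_cons_of_mem hb')) (m - k) hk3
    obtain ⟨d, hd, hm2⟩ := split_out ha k b (hB b (mem_cons_self b B))
      (by rw [← Nat.le_div_iff_mul_le ha]; exact hk1)
    refine ⟨d + c, ?_, ?_⟩
    · rw [card_cons, sum_cons]
      have e : m * (a - 1) = k * (a - 1) + (m - k) * (a - 1) := by
        rw [← add_mul, Nat.add_sub_cancel' hk2]
      omega
    · have h := hm2.append hm1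
      rw [singleton_add] at h
      have e : (replicate m a : Multiset ℕ) = replicate k a + replicate (m - k) a := by
        rw [← replicate_add, Nat.add_sub_cancel' hk2]
      rw [e]
      exact h

/-- The smallest number of copies of `a` which can be merged and reduced to the entries of `B`. -/
theorem path_cover {a : ℕ} (ha : 0 < a) (B : Multiset ℕ) : (∀ b ∈ B, 0 < b) →
    ∃ c, c + B.sum = (B.map fun b => (b - 1) / a).sum +
        a * (B.map fun b => (b - 1) / a + 1).sum ∧
      Moves c (replicate (B.map fun b => (b - 1) / a + 1).sum a) B := by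
  induction B using Multiset.induction_on with
  | empty =>
    intro _
    exact ⟨0, by simp, by simpa using Moves.refl 0⟩
  | cons b B ih =>
    intro hB
    obtain ⟨c, hc, hm1⟩ := ih (fun b' hb' => hB b' (mem_cons_of_mem hb'))
    have hb := hB b (mem_cons_self b B)
    set k := (b - 1) / a with hk
    have h1 : b ≤ a * (k + 1) := by
      have := Nat.lt_mul_div_succ (b - 1) ha
      rw [← hk] at this
      omega
    have h2 := merge_into ha ha k
    have e1 : a * k + a = b + (a * (k + 1) - b) := by
      have : a * (k + 1) = a * k + a := by ring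
      omega
    rw [e1] at h2
    have h3 := h2.trans (reduce hb (a * (k + 1) - b))
    refine ⟨k + (a * (k + 1) - b) + c, ?_, ?_⟩
    · rw [map_cons, map_cons, sum_cons, sum_cons, sum_cons, ← hk]
      have e : a * (k + 1 + (B.map fun b => (b - 1) / a + 1).sum) =
          a * (k + 1) + a * (B.map fun b => (b - 1) / a + 1).sum := Nat.mul_add _ _ _
      omega
    · have h := h3.append hm1
      rw [singleton_add] at h
      rw [map_cons, sum_cons, replicate_add]
      have e2 : (replicate ((b - 1) / a + 1) a : Multiset ℕ) = replicate k a + {a} := by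
        rw [← hk, replicate_succ, ← singleton_add, add_comm]
      rw [e2]
      exact h

/-! ### Signatures -/

/-- The value of the signature at `x < 1 / 2`. -/
theorem sig_eq {n F : ℕ} {x : ℝ} (hF : F < n) (hx : x < 1 / 2)
    (h1 : (F : ℝ) < n * (1 / 2 - x)) (h2 : n * (1 / 2 - x) < F + 1) :
    sig n x = 2 * F - (n - 1) := by
  have hn : (0 : ℝ) < n := by exact_mod_cast (by omega : 0 < n)
  have hiff : ∀ j ∈ Finset.Ioo 0 n,
      ((x < 1 / 2 + (j : ℝ) / n ∧ 1 / 2 + (j : ℝ) / n < x + 1) ↔ j ≤ n - 1 - F) := by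
    intro j hj
    have hj0 : (0 : ℝ) ≤ (j : ℝ) / n := by positivity
    constructor
    · rintro ⟨-, h3⟩
      have h4 : (j : ℝ) / n < x + 1 / 2 := by linarith
      rw [div_lt_iff₀ hn] at h4
      have h5 : (j : ℝ) + F < n := by nlinarith
      have h6 : j + F < n := by exact_mod_cast h5
      omega
    · intro h3
      refine ⟨by linarith, ?_⟩
      have h4 : (j : ℝ) + F + 1 ≤ n := by exact_mod_cast (by omega : j + F + 1 ≤ n)
      have h5 : (j : ℝ) / n < x + 1 / 2 := by
        rw [div_lt_iff₀ hn]; nlinarith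
      linarith
  unfold sig
  rw [Finset.sum_congr rfl fun j hj => by
    rw [show (if x < 1 / 2 + (j : ℝ) / n ∧ 1 / 2 + (j : ℝ) / n < x + 1 then (-1 : ℤ) else 1)
      = if j ≤ n - 1 - F then -1 else 1 from by simp only [hiff j hj]]]
  rw [Finset.sum_ite, Finset.sum_const, Finset.sum_const]
  have e1 : (Finset.Ioo 0 n).filter (fun j => j ≤ n - 1 - F) = Finset.Ioc 0 (n - 1 - F) := by
    ext j; simp only [Finset.mem_filter, Finset.mem_Ioo, Finset.mem_Ioc]; omega
  have e2 : (Finset.Ioo 0 n).filter (fun j => ¬ j ≤ n - 1 - F) = Finset.Ioo (n - 1 - F) n := by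
    ext j; simp only [Finset.mem_filter, Finset.mem_Ioo]; omega
  rw [e1, e2, Nat.card_Ioc, Nat.card_Ioo]
  simp only [nsmul_eq_mul]
  have e3 : ((n - 1 - F - 0 : ℕ) : ℤ) = n - 1 - F := by omega
  have e4 : ((n - (n - 1 - F) - 1 : ℕ) : ℤ) = F := by omega
  rw [e3, e4]; ring

/-- The signature of the sum of the `T(2,b)`. -/
theorem sig_sum (B : Multiset ℕ) (x : ℝ) (F : ℕ → ℕ)
    (h : ∀ b ∈ B, sig b x = 2 * (F b : ℤ) - ((b : ℤ) - 1)) :
    (B.map fun b => sig b x).sum = 2 * ((B.map F).sum : ℤ) - (B.sum : ℤ) + card B := by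
  induction B using Multiset.induction_on with
  | empty => simp
  | cons b B ih =>
    rw [map_cons, sum_cons, map_cons, sum_cons, sum_cons, card_cons,
      ih (fun b' hb' => h b' (mem_cons_of_mem hb')), h b (mem_cons_self b B)]
    push_cast
    ring

theorem even_sum (B : Multiset ℕ) (hB : ∀ b ∈ B, Odd b) : Even ((B.sum : ℤ) - card B) := by
  induction B using Multiset.induction_on with
  | empty => simp
  | cons b B ih =>
    obtain ⟨k, hk⟩ := hB b (mem_cons_self b B)
    obtain ⟨l, hl⟩ := ih (fun b' hb' => hB b' (mem_cons_of_mem hb'))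
    refine ⟨k + l, ?_⟩
    have hk' : (b : ℤ) = 2 * k + 1 := by exact_mod_cast hk
    rw [sum_cons, card_cons, Nat.cast_add, Nat.cast_add, Nat.cast_one, hk']
    linarith

theorem HasGenus.mk' {a m c : ℕ} {B : Multiset ℕ} {L : ℤ} (hc : (c : ℤ) = L) (hL : Even L)
    (hM : Moves c (replicate m a) B)
    (hs : ∃ u v : ℝ, 0 ≤ u ∧ u < v ∧ v ≤ 1 / 2 ∧ ∀ x : ℝ, u < x → x < v →
      |(B.map fun b => sig b x).sum - (m : ℤ) * sig a x| = L) : HasGenus a m B L := by
  obtain ⟨k, hk⟩ := hL
  have h0 : 0 ≤ k := by omega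
  obtain ⟨g, rfl⟩ := Int.eq_ofNat_of_zero_le h0
  have hL' : L = 2 * g := by rw [hk]; ring
  refine ⟨g, hL', ⟨c, by omega, hM⟩, ?_⟩
  rw [hL'] at hs
  exact hs

theorem le_sum {B : Multiset ℕ} {b : ℕ} (h : b ∈ B) : b ≤ B.sum := Multiset.le_sum_of_mem h

/-- Few copies of `a`. -/
theorem genus_few {a : ℕ} (ha : Odd a) (m : ℕ) (B : Multiset ℕ)
    (hB : ∀ b ∈ B, Odd b) (hm : m ≤ (B.map fun b => b / a).sum) :
    HasGenus a m B ((B.sum : ℤ) - card B - m * (a - 1)) := by
  have ha0 : 0 < a := ha.pos
  obtain ⟨c, hc, hM⟩ := path_few ha0 B (fun b hb => (hB b hb).pos) m hm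
  have hcZ : (c : ℤ) = (B.sum : ℤ) - card B - m * (a - 1) := by
    have h1 : ((c + m * (a - 1) + card B : ℕ) : ℤ) = B.sum := by rw [hc]
    push_cast [Nat.cast_sub ha0] at h1
    push_cast at h1 ⊢
    linarith
  refine HasGenus.mk' hcZ ?_ hM.symm ?_
  · obtain ⟨k, hk⟩ := ha
    have h1 : (m : ℤ) * ((a : ℤ) - 1) = 2 * (m * k) := by rw [hk]; push_cast; ring
    rw [h1]
    exact (even_sum B hB).sub (even_two_mul _)
  · have hw0 : (0 : ℝ) < 1 / ((a : ℝ) + B.sum + 2) := by positivity
    refine ⟨1 / 2 - 1 / ((a : ℝ) + B.sum + 2), 1 / 2, ?_, by linarith, le_rfl, ?_⟩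
    · have : 1 / ((a : ℝ) + B.sum + 2) ≤ 1 / 2 :=
        one_div_le_one_div_of_le (by norm_num) (by
          have h1 : (0 : ℝ) ≤ a := by positivity
          have h2 : (0 : ℝ) ≤ B.sum := by positivity
          linarith)
      linarith
    intro x hx1 hx2
    have hy : 1 / 2 - x < 1 / ((a : ℝ) + B.sum + 2) := by linarith
    rw [lt_div_iff₀ (by positivity)] at hy
    have key : ∀ n : ℕ, 0 < n → (n : ℝ) ≤ (a : ℝ) + B.sum + 2 → sig n x = 2 * (0 : ℕ) - (n - 1) := by
      intro n hn hle
      have hn' : (0 : ℝ) < n := by exact_mod_cast hn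
      apply sig_eq hn hx2
      · push_cast
        apply mul_pos hn'
        linarith
      · push_cast
        nlinarith
    have h1 : sig a x = 2 * (0 : ℕ) - (a - 1) := key a ha0 (by
      have : (0 : ℝ) ≤ B.sum := by positivity
      linarith)
    have h2 := sig_sum B x (fun _ => 0) (fun b hb => key b (hB b hb).pos (by
      have h3 : (b : ℝ) ≤ B.sum := by exact_mod_cast le_sum hb
      have : (0 : ℝ) ≤ a := by positivity
      linarith))
    have h3 : (B.map fun _ => 0).sum = 0 := by simp
    rw [h2, h1, h3]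
    have e : 2 * ((0 : ℕ) : ℤ) - (B.sum : ℤ) + card B - m * (2 * ((0 : ℕ) : ℤ) - (a - 1)) =
        -((B.sum : ℤ) - card B - m * (a - 1)) := by
      rw [Nat.cast_zero]
      ring
    rw [e, abs_neg, abs_of_nonneg]
    rw [← hcZ]
    positivity

/-- Many copies of `a`. -/
theorem genus_many {a : ℕ} (ha : Odd a) (ha3 : 3 ≤ a) (m : ℕ) (B : Multiset ℕ)
    (hB : ∀ b ∈ B, Odd b) {c : ℕ} (hM : Moves c (replicate m a) B)
    (hc : (c : ℤ) = m * (a - 1) - ((B.sum : ℤ) - card B) +
      2 * ((B.map fun b => (b - 1) / a).sum : ℕ)) :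
    HasGenus a m B (m * (a - 1) - ((B.sum : ℤ) - card B) +
      2 * ((B.map fun b => (b - 1) / a).sum : ℕ)) := by
  have ha0 : 0 < a := ha.pos
  have har : (3 : ℝ) ≤ a := by exact_mod_cast ha3
  have har0 : (0 : ℝ) < a := by linarith
  refine HasGenus.mk' hc ?_ hM ?_
  · obtain ⟨k, hk⟩ := ha
    have h1 : (m : ℤ) * ((a : ℤ) - 1) = 2 * (m * k) := by rw [hk]; push_cast; ring
    rw [h1]
    exact ((even_two_mul _).sub (even_sum B hB)).add (even_two_mul _)
  · have hS : (0 : ℝ) ≤ B.sum := by positivity
    have hw0 : (0 : ℝ) < 1 / (a * ((B.sum : ℝ) + 2)) := by positivity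
    have hw1 : 1 / (a * ((B.sum : ℝ) + 2)) ≤ 1 / (2 * a) :=
      one_div_le_one_div_of_le (by positivity) (by nlinarith)
    have ha1 : 1 / (a : ℝ) ≤ 1 / 3 := one_div_le_one_div_of_le (by norm_num) har
    have e2 : 1 / (2 * (a : ℝ)) = 1 / a / 2 := by field_simp
    have ha2 : 0 < 1 / (a : ℝ) := by positivity
    refine ⟨1 / 2 - 1 / a, 1 / 2 - 1 / a + 1 / (a * ((B.sum : ℝ) + 2)), by linarith, by linarith,
      by linarith, ?_⟩
    intro x hx1 hx2
    have hx3 : x < 1 / 2 := by linarith
    have hy1 : 1 / 2 - x < 1 / (a : ℝ) := by linarith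
    have hy2 : 1 / (a : ℝ) - 1 / (a * ((B.sum : ℝ) + 2)) < 1 / 2 - x := by linarith
    have hy3 : (1 / 2 - x) * a < 1 := by rwa [lt_div_iff₀ har0] at hy1
    have hy4 : (B.sum : ℝ) + 1 < (1 / 2 - x) * a * ((B.sum : ℝ) + 2) := by
      have h1 : 1 / (a : ℝ) - 1 / (a * ((B.sum : ℝ) + 2)) =
          ((B.sum : ℝ) + 1) / (a * ((B.sum : ℝ) + 2)) := by
        field_simp
        ring
      rw [h1, div_lt_iff₀ (by positivity)] at hy2
      linarith
    have hy5 : 0 < 1 / 2 - x := by linarith
    have h1 : sig a x = 2 * (0 : ℕ) - (a - 1) := by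
      apply sig_eq ha0 hx3
      · push_cast
        positivity
      · push_cast
        linarith
    have h2 := sig_sum B x (fun b => (b - 1) / a) (fun b hb => by
      have hb0 : 0 < b := (hB b hb).pos
      have hbr : (0 : ℝ) < b := by exact_mod_cast hb0
      have hbS : (b : ℝ) ≤ B.sum := by exact_mod_cast le_sum hb
      set k := (b - 1) / a with hk
      have hk1 : a * k + 1 ≤ b := by
        have := Nat.mul_div_le (b - 1) a
        rw [← hk] at this
        omega
      have hk2 : b ≤ a * (k + 1) := by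
        have := Nat.lt_mul_div_succ (b - 1) ha0
        rw [← hk] at this
        omega
      have hk1' : (a : ℝ) * k + 1 ≤ b := by exact_mod_cast hk1
      have hk2' : (b : ℝ) ≤ a * (k + 1) := by exact_mod_cast hk2
      have hkb : k < b := by
        have : 1 * k ≤ a * k := Nat.mul_le_mul_right k ha0
        omega
      apply sig_eq hkb hx3
      · -- `k a < b (1/2 - x) a`
        have h3 : (k : ℝ) * a < b * (1 / 2 - x) * a := by
          have h4 : (b : ℝ) * (1 - (1 / 2 - x) * a) < 1 := by
            have h5 : (1 - (1 / 2 - x) * a) * ((B.sum : ℝ) + 2) < 1 := by nlinarith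
            have h6 : 0 < 1 - (1 / 2 - x) * a := by linarith
            nlinarith
          nlinarith
        exact lt_of_mul_lt_mul_right h3 har0.le
      · have h3 : b * (1 / 2 - x) * a < ((k : ℝ) + 1) * a := by
          have h4 : (b : ℝ) * ((1 / 2 - x) * a) < b * 1 := mul_lt_mul_of_pos_left hy3 hbr
          nlinarith
        exact lt_of_mul_lt_mul_right h3 har0.le)
    rw [h2, h1]
    have e : 2 * (((B.map fun b => (b - 1) / a).sum : ℕ) : ℤ) - (B.sum : ℤ) + card B -
        m * (2 * ((0 : ℕ) : ℤ) - (a - 1)) = m * (a - 1) - ((B.sum : ℤ) - card B) +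
        2 * ((B.map fun b => (b - 1) / a).sum : ℕ) := by
      push_cast
      ring
    rw [e, abs_of_nonneg]
    rw [← hc]
    positivity

theorem path_many {a : ℕ} (ha : Odd a) (m : ℕ) (B : Multiset ℕ)
    (hB : ∀ b ∈ B, Odd b) (hm : (B.map fun b => (b - 1) / a + 1).sum ≤ m) :
    ∃ c : ℕ, Moves c (replicate m a) B ∧ (c : ℤ) = m * (a - 1) - ((B.sum : ℤ) - card B) +
      2 * ((B.map fun b => (b - 1) / a).sum : ℕ) := by
  have ha0 : 0 < a := ha.pos
  obtain ⟨c, hc, hM⟩ := path_cover ha0 B (fun b hb => (hB b hb).pos)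
  set J := (B.map fun b => (b - 1) / a + 1).sum with hJ
  have hJ' : J = (B.map fun b => (b - 1) / a).sum + card B := by
    rw [hJ, Multiset.sum_map_add]
    simp
  have h1 := hM.append (kill_all ha0 (m - J))
  rw [← replicate_add, Nat.add_sub_cancel' hm, add_zero] at h1
  refine ⟨_, h1, ?_⟩
  have h2 : ((c + B.sum : ℕ) : ℤ) = (((B.map fun b => (b - 1) / a).sum + a * J : ℕ) : ℤ) := by
    rw [hc]
  push_cast [Nat.cast_sub hm, Nat.cast_sub ha0] at h2 ⊢
  rw [hJ'] at h2 ⊢
  push_cast at h2 ⊢
  linarith

/-- The signature of `T(2,n)` just below `1 / 2 - 1 / a`. -/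
theorem sig_above {a n q t : ℕ} (ha3 : 3 ≤ a) (hn : 0 < n) (hq : a * q + t = n) (ht : t < a)
    {x : ℝ} (hx : x < 1 / 2) (h1 : 1 < (1 / 2 - x) * a) (h2 : n * ((1 / 2 - x) * a - 1) < 1) :
    sig n x = 2 * (q : ℕ) - (n - 1) := by
  have har0 : (0 : ℝ) < a := by exact_mod_cast (by omega : 0 < a)
  have hnr : (0 : ℝ) < n := by exact_mod_cast hn
  have hq1 : (q : ℝ) * a ≤ n := by
    have : q * a ≤ n := by rw [Nat.mul_comm]; omega
    exact_mod_cast this
  have hq2 : (n : ℝ) + 1 ≤ ((q : ℝ) + 1) * a := by
    have : n + 1 ≤ (q + 1) * a := by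
      have e : (q + 1) * a = a * q + a := by ring
      omega
    exact_mod_cast this
  have hqn : q < n := by
    rcases Nat.eq_zero_or_pos q with h0 | h0
    · omega
    · have : 3 * q ≤ a * q := Nat.mul_le_mul_right q ha3
      omega
  have h4 : (n : ℝ) * 1 < n * ((1 / 2 - x) * a) := mul_lt_mul_of_pos_left h1 hnr
  have e5 : (n : ℝ) * ((1 / 2 - x) * a - 1) = n * ((1 / 2 - x) * a) - n := by ring
  have e6 : (n : ℝ) * (1 / 2 - x) * a = n * ((1 / 2 - x) * a) := by ring
  apply sig_eq hqn hx
  · have h3 : (q : ℝ) * a < n * (1 / 2 - x) * a := by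
      rw [e6]
      linarith
    exact lt_of_mul_lt_mul_right h3 har0.le
  · have h3 : n * (1 / 2 - x) * a < ((q : ℝ) + 1) * a := by
      rw [e6]
      linarith
    exact lt_of_mul_lt_mul_right h3 har0.le

/-- Two entries, and one copy of `a` for both remainders, which are too large for it: the path. -/
theorem path_two {a : ℕ} (ha0 : 0 < a) (m b c : ℕ) (hm : m = b / a + c / a + 1)
    (h : a ≤ b % a + c % a) :
    Moves (b / a + c / a + (c % a - (a - b % a)) + 1) (replicate m a) {b, c} := by
  set i := b / a with hi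
  set j := c / a with hj
  set r := b % a with hr
  set s := c % a with hs
  have hbd : a * i + r = b := Nat.div_add_mod b a
  have hcd : a * j + s = c := Nat.div_add_mod c a
  have hra : r < a := Nat.mod_lt _ ha0
  have hsa : s < a := Nat.mod_lt _ ha0
  have hr0 : 0 < r := by omega
  have hs0 : 0 < s := by omega
  have p1 : Moves i {b} (replicate i a + {r}) := by
    rw [← hbd]
    exact (merge_into ha0 hr0 i).symm
  have p2 : Moves j {c} (replicate j a + {s}) := by
    rw [← hcd]
    exact (merge_into ha0 hs0 j).symm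
  have p3 : Moves (s - (a - r)) {s} {a - r} := by
    have := reduce (c := a - r) (by omega) (s - (a - r))
    have e : a - r + (s - (a - r)) = s := by omega
    rwa [e] at this
  have p4 : Moves 1 (r ::ₘ (a - r) ::ₘ 0) {a} := by
    have := Moves.merge (c := 0) (s := r ::ₘ (a - r) ::ₘ 0) (u := 0) hr0 (by omega : 0 < a - r)
      (Moves.refl _)
    have e : r + (a - r) = a := by omega
    rw [e] at this
    exact this
  have q1 := p1.append p2
  have q2 := p3.addRight (replicate i a + {r} + replicate j a)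
  have q3 := p4.addRight (replicate i a + replicate j a)
  have e1 : (replicate i a + {r} + (replicate j a + {s}) : Multiset ℕ) =
      {s} + (replicate i a + {r} + replicate j a) := by abel
  have e2 : ({a - r} + (replicate i a + {r} + replicate j a) : Multiset ℕ) =
      r ::ₘ (a - r) ::ₘ 0 + (replicate i a + replicate j a) := by
    rw [← singleton_add r, ← singleton_add (a - r)]
    abel
  have e3 : ({a} + (replicate i a + replicate j a) : Multiset ℕ) = replicate m a := by
    rw [← replicate_add, singleton_add, ← replicate_succ, hm]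
  have e4 : ({b, c} : Multiset ℕ) = {b} + {c} := rfl
  rw [e1] at q1
  rw [e2] at q2
  rw [e3] at q3
  rw [e4]
  exact ((q1.trans q2).trans q3).symm

/-- Two entries, and one copy of `a` large enough for both remainders: the path. -/
theorem path_two' {a : ℕ} (ha0 : 0 < a) (m b c : ℕ) (hm : m = b / a + c / a + 1)
    (hr0 : 0 < b % a) (hs0 : 0 < c % a) (h : b % a + c % a < a) :
    Moves (1 + (b / a) + (c / a) + (a - b % a - c % a)) (replicate m a) {b, c} := by
  set i := b / a with hi
  set j := c / a with hj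
  set r := b % a with hr
  set s := c % a with hs
  have hbd : a * i + r = b := Nat.div_add_mod b a
  have hcd : a * j + s = c := Nat.div_add_mod c a
  have p1 : Moves i (replicate i a + {r}) {b} := by
    have := merge_into ha0 hr0 i
    rwa [hbd] at this
  have p2 : Moves j (replicate j a + {s}) {c} := by
    have := merge_into ha0 hs0 j
    rwa [hcd] at this
  have p3 : Moves (a - r - s) {a - r} {s} := by
    have := reduce hs0 (a - r - s)
    have e : s + (a - r - s) = a - r := by omega
    rwa [e] at this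
  have p4 : Moves 1 {a} (r ::ₘ (a - r) ::ₘ 0) := by
    have e : r + (a - r) = a := by omega
    apply Moves.split (u := 0) hr0 (by omega)
    rw [e]
    exact Moves.refl _
  have q1 := p4.addRight (replicate i a + replicate j a)
  have q2 := p3.addRight (replicate i a + {r} + replicate j a)
  have q3 := p1.append p2
  have e1 : (replicate i a + {r} + (replicate j a + {s}) : Multiset ℕ) =
      {s} + (replicate i a + {r} + replicate j a) := by abel
  have e2 : ({a - r} + (replicate i a + {r} + replicate j a) : Multiset ℕ) =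
      r ::ₘ (a - r) ::ₘ 0 + (replicate i a + replicate j a) := by
    rw [← singleton_add r, ← singleton_add (a - r)]
    abel
  have e3 : ({a} + (replicate i a + replicate j a) : Multiset ℕ) = replicate m a := by
    rw [← replicate_add, singleton_add, ← replicate_succ, hm]
  have e4 : ({b, c} : Multiset ℕ) = {b} + {c} := rfl
  rw [e3] at q1
  rw [e2] at q2
  rw [e1] at q3
  rw [e4]
  have q4 := (q1.trans q2).trans q3
  have e5 : 1 + i + j + (a - r - s) = 1 + (a - r - s) + (i + j) := by ring
  rw [e5]
  exact q4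

/-- Two entries, and one copy of `a` for both remainders, which are too large for it. -/
theorem genus_two {a : ℕ} (ha : Odd a) (ha3 : 3 ≤ a) (m b c : ℕ) (hb : Odd b) (hc : Odd c)
    (hm : m = b / a + c / a + 1) (h : a ≤ b % a + c % a) :
    HasGenus a m {b, c} (((b : ℤ) - 1) + (c - 1) - m * (a - 1) + 2) := by
  have ha0 : 0 < a := ha.pos
  have har : (3 : ℝ) ≤ a := by exact_mod_cast ha3
  have har0 : (0 : ℝ) < a := by linarith
  have p5 := path_two ha0 m b c hm h
  have hbd : a * (b / a) + b % a = b := Nat.div_add_mod b a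
  have hcd : a * (c / a) + c % a = c := Nat.div_add_mod c a
  have hra : b % a < a := Nat.mod_lt _ ha0
  have hsa : c % a < a := Nat.mod_lt _ ha0
  generalize b / a = i at *
  generalize c / a = j at *
  generalize b % a = r at *
  generalize c % a = s at *
  have hbZ : (b : ℤ) = a * i + r := by exact_mod_cast hbd.symm
  have hcZ : (c : ℤ) = a * j + s := by exact_mod_cast hcd.symm
  have hmZ : (m : ℤ) = i + j + 1 := by exact_mod_cast hm
  have hcount : ((i + j + (s - (a - r)) + 1 : ℕ) : ℤ) =
      ((b : ℤ) - 1) + (c - 1) - m * (a - 1) + 2 := by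
    have h1 : ((s - (a - r) : ℕ) : ℤ) = s + r - a := by omega
    rw [Nat.cast_add, Nat.cast_add, Nat.cast_add, h1, hmZ, hbZ, hcZ]
    push_cast
    ring
  refine HasGenus.mk' hcount ?_ p5 ?_
  · obtain ⟨k, hk⟩ := ha
    obtain ⟨k1, hk1⟩ := hb
    obtain ⟨k2, hk2⟩ := hc
    refine ⟨k1 + k2 - m * k + 1, ?_⟩
    have h1 : (a : ℤ) = 2 * k + 1 := by exact_mod_cast hk
    have h2 : (b : ℤ) = 2 * k1 + 1 := by exact_mod_cast hk1
    have h3 : (c : ℤ) = 2 * k2 + 1 := by exact_mod_cast hk2
    rw [h1, h2, h3]
    ring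
  · have hb0 : (0 : ℝ) < b := by exact_mod_cast hb.pos
    have hc0 : (0 : ℝ) < c := by exact_mod_cast hc.pos
    set S : ℝ := (b : ℝ) + c + 2 with hS
    have hS0 : 2 ≤ S := by linarith
    have hw0 : (0 : ℝ) < 1 / (a * S) := by positivity
    have hw1 : 1 / (a * S) ≤ 1 / (2 * a) :=
      one_div_le_one_div_of_le (by positivity) (by nlinarith)
    have ha1 : 1 / (a : ℝ) ≤ 1 / 3 := one_div_le_one_div_of_le (by norm_num) har
    have e2 : 1 / (2 * (a : ℝ)) = 1 / a / 2 := by field_simp
    have ha2 : 0 < 1 / (a : ℝ) := by positivity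
    refine ⟨1 / 2 - 1 / a - 1 / (a * S), 1 / 2 - 1 / a, by linarith, by linarith,
      by linarith, ?_⟩
    intro x hx1 hx2
    have hx3 : x < 1 / 2 := by linarith
    have hy1 : 1 / (a : ℝ) < 1 / 2 - x := by linarith
    have hy2 : 1 / 2 - x < 1 / (a : ℝ) + 1 / (a * S) := by linarith
    have hy3 : 1 < (1 / 2 - x) * a := by rwa [div_lt_iff₀ har0] at hy1
    have hδ : ((1 / 2 - x) * a - 1) * S < 1 := by
      have h1 : 1 / (a : ℝ) + 1 / (a * S) = (S + 1) / (a * S) := by
        field_simp
      rw [h1, lt_div_iff₀ (by positivity)] at hy2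
      have h2 : ((1 / 2 - x) * a - 1) * S = (1 / 2 - x) * (a * S) - S := by ring
      rw [h2]
      linarith
    have hδ0 : 0 < (1 / 2 - x) * a - 1 := by linarith
    have hbS : (b : ℝ) * ((1 / 2 - x) * a - 1) < 1 := by
      have h1 : (b : ℝ) * ((1 / 2 - x) * a - 1) ≤ S * ((1 / 2 - x) * a - 1) :=
        mul_le_mul_of_nonneg_right (by linarith) hδ0.le
      linarith [mul_comm S ((1 / 2 - x) * a - 1)]
    have hcS : (c : ℝ) * ((1 / 2 - x) * a - 1) < 1 := by
      have h1 : (c : ℝ) * ((1 / 2 - x) * a - 1) ≤ S * ((1 / 2 - x) * a - 1) :=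
        mul_le_mul_of_nonneg_right (by linarith) hδ0.le
      linarith [mul_comm S ((1 / 2 - x) * a - 1)]
    have hlt2 : (1 / 2 - x) * a - 1 < 1 := by
      have h1 : 1 * ((1 / 2 - x) * a - 1) ≤ S * ((1 / 2 - x) * a - 1) :=
        mul_le_mul_of_nonneg_right (by linarith) hδ0.le
      linarith [mul_comm S ((1 / 2 - x) * a - 1)]
    have s1 : sig a x = 2 * (1 : ℕ) - (a - 1) := by
      apply sig_eq (by omega) hx3
      · push_cast
        linarith [mul_comm (a : ℝ) (1 / 2 - x)]
      · push_cast
        linarith [mul_comm (a : ℝ) (1 / 2 - x)]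
    have s2 := sig_above ha3 hb.pos hbd hra hx3 hy3 hbS
    have s3 := sig_above ha3 hc.pos hcd hsa hx3 hy3 hcS
    have e4 : (({b, c} : Multiset ℕ).map fun n => sig n x).sum = sig b x + sig c x := by simp
    rw [e4, s1, s2, s3, ← hcount]
    have e5 : 2 * ((i : ℕ) : ℤ) - (b - 1) + (2 * (j : ℕ) - (c - 1)) - m * (2 * (1 : ℕ) - (a - 1)) =
        -((i + j + (s - (a - r)) + 1 : ℕ) : ℤ) := by
      rw [hcount, hmZ]
      push_cast
      ring
    rw [e5, abs_neg, abs_of_nonneg (by positivity)]

/-- **Theorem.** Let `a ≥ 3` be odd. (1) For all odd `b`, `c` and all `m` the knot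
`T(2,b) # T(2,c) # -m T(2,a)` has `2 g_r = 2 g_4 = twiceGenus a m b c`. (2), (3) Let `B` be any
finite multiset of odd numbers. The knot which is the sum of all `T(2,b)`, `b` in `B`, and of
`-m T(2,a)` has `2 g_r = 2 g_4 = ∑ (b - 1) - m (a - 1)` if `m ≤ ∑ ⌊b / a⌋`, and
`2 g_r = 2 g_4 = m (a - 1) - ∑ (b - 1) + 2 ∑ (⌈b / a⌉ - 1)` if `m ≥ ∑ ⌈b / a⌉`. -/
theorem result (a : ℕ) (ha : Odd a) (ha3 : 3 ≤ a) :
    (∀ m b c : ℕ, Odd b → Odd c → HasGenus a m {b, c} (twiceGenus a m b c)) ∧
    (∀ (m : ℕ) (B : Multiset ℕ), (∀ b ∈ B, Odd b) → m ≤ (B.map fun b => b / a).sum →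
      HasGenus a m B ((B.sum : ℤ) - card B - m * (a - 1))) ∧
    (∀ (m : ℕ) (B : Multiset ℕ), (∀ b ∈ B, Odd b) → (B.map fun b => (b - 1) / a + 1).sum ≤ m →
      HasGenus a m B (m * (a - 1) - ((B.sum : ℤ) - card B) +
        2 * ((B.map fun b => (b - 1) / a).sum : ℕ))) := by
  refine ⟨fun m b c hb hc => ?_, fun m B hB hm => genus_few ha m B hB hm, fun m B hB hm => ?_⟩
  · have hB : ∀ x ∈ ({b, c} : Multiset ℕ), Odd x := by
      intro x hx
      rw [insert_eq_cons, mem_cons, mem_singleton] at hx
      rcases hx with rfl | rfl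
      · exact hb
      · exact hc
    unfold twiceGenus
    split_ifs with h1 h2
    · have h3 := genus_few ha m {b, c} hB (by simpa using h1)
      have e : ((({b, c} : Multiset ℕ).sum : ℕ) : ℤ) - (card ({b, c} : Multiset ℕ) : ℕ) -
          m * (a - 1) = (b - 1) + (c - 1) - m * (a - 1) := by
        simp
        ring
      rw [e] at h3
      exact h3
    · exact genus_two ha ha3 m b c hb hc h2.1 h2.2
    · have e : (m : ℤ) * (a - 1) - (((({b, c} : Multiset ℕ).sum : ℕ) : ℤ) -
          (card ({b, c} : Multiset ℕ) : ℕ)) +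
          2 * ((({b, c} : Multiset ℕ).map fun b => (b - 1) / a).sum : ℕ) =
          m * (a - 1) - (b - 1) - (c - 1) + 2 * (((b - 1) / a : ℕ) + ((c - 1) / a : ℕ)) := by
        simp
        ring
      rw [← e]
      have hr : b % a < a := Nat.mod_lt _ ha.pos
      have hs : c % a < a := Nat.mod_lt _ ha.pos
      have hbd : a * (b / a) + b % a = b := Nat.div_add_mod b a
      have hcd : a * (c / a) + c % a = c := Nat.div_add_mod c a
      by_cases h3 : (b - 1) / a + 1 + ((c - 1) / a + 1) ≤ m
      · obtain ⟨d, hM, hd⟩ := path_many ha m {b, c} hB (by simpa using h3)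
        exact genus_many ha ha3 m {b, c} hB hM hd
      · have hb1 : (b - 1) / a ≤ b / a := Nat.div_le_div_right (by omega)
        have hc1 : (c - 1) / a ≤ c / a := Nat.div_le_div_right (by omega)
        have hm : m = b / a + c / a + 1 := by omega
        have hb2 : (b - 1) / a = b / a := by omega
        have hc2 : (c - 1) / a = c / a := by omega
        have h4 : b % a + c % a < a := by
          by_contra h5
          exact h2 ⟨hm, by omega⟩
        have hr0 : 0 < b % a := by
          by_contra h5
          have h6 : b % a = 0 := by omega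
          have h7 := Nat.mul_div_le (b - 1) a
          have h8 := hb.pos
          rw [hb2] at h7
          omega
        have hs0 : 0 < c % a := by
          by_contra h5
          have h6 : c % a = 0 := by omega
          have h7 := Nat.mul_div_le (c - 1) a
          have h8 := hc.pos
          rw [hc2] at h7
          omega
        refine genus_many ha ha3 m {b, c} hB (path_two' ha.pos m b c hm hr0 hs0 h4) ?_
        rw [e, hb2, hc2]
        have hbZ : (b : ℤ) = a * (b / a : ℕ) + (b % a : ℕ) := by exact_mod_cast hbd.symm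
        have hcZ : (c : ℤ) = a * (c / a : ℕ) + (c % a : ℕ) := by exact_mod_cast hcd.symm
        have hmZ : (m : ℤ) = (b / a : ℕ) + (c / a : ℕ) + 1 := by exact_mod_cast hm
        have h9 : ((a - b % a - c % a : ℕ) : ℤ) = a - (b % a : ℕ) - (c % a : ℕ) := by omega
        rw [Nat.cast_add, Nat.cast_add, Nat.cast_add, h9, hmZ]
        generalize b / a = i at *
        generalize c / a = j at *
        generalize b % a = r at *
        generalize c % a = s at *
        rw [hbZ, hcZ]
        push_cast
        ring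
  · obtain ⟨c, hM, hc⟩ := path_many ha m B hB hm
    exact genus_many ha ha3 m B hB hM hc

end Pool.Agent.Results.MP_177a0e_gt.UnequalTorusSums
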